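import Pool.Agent.H87.AN.TargetsC
import Pool.Agent.H80.AN.TargetsA

/-! Board allh_modules, row ALL. -/

namespace Pool.Agent.H60.AN

open MeasureTheory Metric Set Filter Topology Pool.Agent.H87.SN Pool.Agent.H87.SH Pool.Agent.H87.AX
open Pool.Agent.H22.AN
open scoped ContDiff RealInnerProductSpace ENNReal

/-- finite unions -/
lemma all_union {n : ℕ} (f : E n → ℝ≥0∞) (t : Finset (E n)) (S : E n → Set (E n)) (B : ℝ≥0∞)
    (hB : ∀ c ∈ t, ∫⁻ x in S c, f x ≤ B) : ∫⁻ x in ⋃ c ∈ t, S c, f x ≤ t.card * B := by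
  classical
  induction t using Finset.induction_on with
  | empty => simp
  | insert a t ha ih =>
    rw [Finset.set_biUnion_insert]
    refine (lintegral_union_le _ _ _).trans ?_
    rw [Finset.card_insert_of_notMem ha]
    have h1 := hB a (Finset.mem_insert_self a t)
    have h2 := ih fun c hc => hB c (Finset.mem_insert_of_mem hc)
    push_cast
    rw [add_mul, one_mul, add_comm]
    exact add_le_add h2 h1

/-- The theorem: Q1 in dimension `d + 2` for maps with a regular set. -/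
theorem pf_ALL (hHSN : Pool.Agent.H22.AN.T_HSN) (hSMI : Pool.Agent.H22.AN.T_SMI)
    (hDSH : Pool.Agent.H22.AN.T_DSH) (hEPC : Pool.Agent.H22.AN.T_EPC)
    (hCOV : Pool.Agent.H87.AX.T_COV) (hCL2 : Pool.Agent.H87.SN.T_CL2) :
    Pool.Agent.H22.AN.T_ALL := by
  intro d m N A ε C hd hN hA hε
  obtain ⟨L, hL, h1⟩ := hSMI d m N A hd hN hA
  rcases lt_or_ge C 0 with hC | hC
  · refine ⟨0, le_rfl, fun U u G hG hU hU2 hu hs he => ?_⟩
    exfalso
    have h2 : 0 ≤ ∫ x in ball (0 : V d) 2, nsq (G x) :=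
      integral_nonneg fun x => Finset.sum_nonneg fun i _ => sq_nonneg _
    linarith
  have hΛ : 0 < 2 ^ d * C + 1 := by positivity
  obtain ⟨er, her, -, hEP⟩ := hEPC d m L (2 ^ d * C + 1) ε hL hΛ hε
  obtain ⟨B, hB0, hB⟩ := hHSN d m L (2 ^ d * C + 1) ε er hd hL hΛ hε her hEP
  obtain ⟨M, hM⟩ := hCOV (d + 2) 8
  obtain ⟨t, htc, ht1, ht2⟩ := hM (0 : V d) (1 / 8) (closedBall 0 1) (by norm_num) (by
    refine closedBall_subset_closedBall ?_
    norm_num)
  refine ⟨M * B, by positivity, fun U u G hG hU hU2 hu hs he => ?_⟩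
  have hS : MeasurableSet (ball (0 : V d) 1 ∩ U) := measurableSet_ball.inter hU.measurableSet
  have e1 : hInt u (ball 0 1 ∩ U) ≤ ENNReal.ofReal (M * B) := by
    have e2 : ∀ c ∈ t, hInt u (ball c (1 / 8) ∩ U) ≤ ENNReal.ofReal B := by
      intro c hc
      obtain ⟨e3, e4⟩ := h1 ε C hε hC U u G hG hU hU2 hu hs he c (ht1 hc)
      exact e4.trans (hB _ _ _ e3)
    have e5 : ball (0 : V d) 1 ∩ U ⊆ ⋃ c ∈ t, (ball c (1 / 8) ∩ U) := by
      rintro x ⟨hx, hxU⟩
      obtain ⟨c, hc, hxc⟩ := mem_iUnion₂.1 (ht2 (ball_subset_closedBall hx))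
      exact mem_iUnion₂.2 ⟨c, hc, hxc, hxU⟩
    calc hInt u (ball 0 1 ∩ U) ≤ ∫⁻ x in ⋃ c ∈ t, (ball c (1 / 8) ∩ U),
          ENNReal.ofReal (Real.sqrt (hsq u x)) := lintegral_mono_set e5
      _ ≤ t.card * ENNReal.ofReal B := all_union _ t _ _ e2
      _ ≤ M * ENNReal.ofReal B := mul_le_mul' (by exact_mod_cast htc) le_rfl
      _ = ENNReal.ofReal (M * B) := by
          rw [ENNReal.ofReal_mul (Nat.cast_nonneg M), ENNReal.ofReal_natCast]
  have hae := hCL2 (d + 2) m U u G hG.w12 hU hU2 hu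
  have h2 := hDSH d m U u G ε hd hε hG.w12.memLp_deriv hU hU2 hu hae hs
    (ne_top_of_le_ne_top ENNReal.ofReal_ne_top e1)
  refine ⟨fun i j => (ball (0 : V d) 1 ∩ U).indicator fun x =>
    fderiv ℝ (fderiv ℝ u) x (bv i) (bv j), fun i j => ?_, fun i j φ hφ hφc hφs => ?_, ?_⟩
  · exact ((h2 (bv i) (bv j)).1.integrable_indicator hS).integrableOn
  · rw [(h2 (bv i) (bv j)).2.2 φ hφ hφc hφs, ← integral_indicator hS]
    congr 1
    refine integral_congr_ae (Eventually.of_forall fun x => ?_)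
    simp only [indicator]
    split_ifs
    · rfl
    · rw [smul_zero]
  · refine le_trans ?_ e1
    have e6 : ∀ x, ENNReal.ofReal (Real.sqrt (∑ i : Fin (d + 2), ∑ j : Fin (d + 2),
        ‖(ball (0 : V d) 1 ∩ U).indicator (fun x => fderiv ℝ (fderiv ℝ u) x (bv i) (bv j)) x‖ ^ 2)) =
        (ball (0 : V d) 1 ∩ U).indicator (fun x => ENNReal.ofReal (Real.sqrt (hsq u x))) x := by
      intro x
      by_cases hx : x ∈ ball (0 : V d) 1 ∩ U
      · simp only [indicator_of_mem hx]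
        rfl
      · simp only [indicator_of_notMem hx]
        simp
    simp only [e6]
    refine (setLIntegral_le_lintegral _ _).trans (le_of_eq ?_)
    rw [lintegral_indicator hS]
    rfl

end Pool.Agent.H60.AN
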